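import Mathlib

namespace Pool.Agent.MP_269329_co.H81

open Finset

lemma norm_sq_identity (a b : ℂ) (ε : ℝ) :
    ‖a + ε * b‖ ^ 2 = (1 + ε) * (‖a‖ ^ 2 + ε * ‖b‖ ^ 2) - ε * ‖a - b‖ ^ 2 := by
  simp only [← Complex.normSq_eq_norm_sq, Complex.normSq_apply, Complex.add_re, Complex.add_im,
    Complex.mul_re, Complex.mul_im, Complex.ofReal_re, Complex.ofReal_im, Complex.sub_re,
    Complex.sub_im]
  ring

lemma twisted_gap (m : ℕ) (χ : ℂ) (hχ : ‖χ‖ = 1) (v : ℕ → ℂ) (hv : v m = χ * v 0) :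
    ‖1 - χ‖ ^ 2 * ∑ i ∈ range m, ‖v i‖ ^ 2 ≤ (m : ℝ) ^ 2 * ∑ i ∈ range m, ‖v i - v (i + 1)‖ ^ 2 := by
  set D1 := ∑ j ∈ range m, ‖v j - v (j + 1)‖ with hD1
  have h1 : ∀ i ∈ range m, ‖1 - χ‖ * ‖v i‖ ≤ D1 := by
    intro i hi
    have hi' := (mem_range.1 hi).le
    have e1 : v 0 - v i = ∑ j ∈ range i, (v j - v (j + 1)) := by
      rw [Finset.sum_range_sub']
    have e2 : v i - v m = ∑ j ∈ Ico i m, (v j - v (j + 1)) := by
      rw [Finset.sum_Ico_eq_sub _ hi', Finset.sum_range_sub', Finset.sum_range_sub']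
      ring
    have e3 : (1 - χ) * v i = (v i - v m) + χ * (v 0 - v i) := by rw [hv]; ring
    rw [← norm_mul, e3]
    calc ‖(v i - v m) + χ * (v 0 - v i)‖ ≤ ‖v i - v m‖ + ‖χ * (v 0 - v i)‖ := norm_add_le _ _
      _ = ‖v 0 - v i‖ + ‖v i - v m‖ := by rw [norm_mul, hχ]; ring
      _ ≤ ∑ j ∈ range i, ‖v j - v (j + 1)‖ + ∑ j ∈ Ico i m, ‖v j - v (j + 1)‖ := by
          rw [e1, e2]; exact add_le_add (norm_sum_le _ _) (norm_sum_le _ _)
      _ = D1 := by rw [hD1, Finset.sum_range_add_sum_Ico _ hi']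
  have h2 : D1 ^ 2 ≤ m * ∑ i ∈ range m, ‖v i - v (i + 1)‖ ^ 2 := by
    have := sq_sum_le_card_mul_sum_sq (s := range m) (f := fun j => ‖v j - v (j + 1)‖)
    simpa using this
  calc ‖1 - χ‖ ^ 2 * ∑ i ∈ range m, ‖v i‖ ^ 2 = ∑ i ∈ range m, (‖1 - χ‖ * ‖v i‖) ^ 2 := by
        rw [mul_sum]; exact sum_congr rfl (fun i _ => by ring)
    _ ≤ ∑ i ∈ range m, D1 ^ 2 := by
        refine sum_le_sum (fun i hi => ?_)
        exact pow_le_pow_left₀ (by positivity) (h1 i hi) 2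
    _ = m * D1 ^ 2 := by simp
    _ ≤ m * (m * ∑ i ∈ range m, ‖v i - v (i + 1)‖ ^ 2) := by
        exact mul_le_mul_of_nonneg_left h2 (Nat.cast_nonneg m)
    _ = _ := by ring

lemma period_step (m : ℕ) (hm : 1 ≤ m) (χ : ℂ) (hχ : ‖χ‖ = 1) (ε τ κ : ℝ) (hε0 : 0 ≤ ε)
    (hε : ε ≤ 1 / 3) (hτ0 : 0 ≤ τ) (hτ : τ * m ≤ 1) (hκ0 : 0 ≤ κ)
    (hκ : κ * (m : ℝ) ^ 2 ≤ ‖1 - χ‖ ^ 2)
    (hθ : (3 * τ * m + 6 * ε) * (4 + 2 * m) ≤ κ / 2) (hθ1 : 3 * τ * m + 6 * ε ≤ 1)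
    (x : ℕ → ℂ)
    (hx : ∀ i < m, ‖x (i + m) - χ * (x i + ε * x (i + 1))‖ ≤
      τ * ε * ∑ k ∈ range m, ‖x (i + k)‖) :
    ∑ i ∈ range m, ‖x (i + m)‖ ^ 2 ≤ ((1 + ε) ^ 2 - ε * κ / 2) * ∑ i ∈ range m, ‖x i‖ ^ 2 := by
  set E := ∑ i ∈ range m, ‖x i‖ ^ 2 with hE
  have hE0 : 0 ≤ E := sum_nonneg (fun i _ => by positivity)
  set M := Real.sqrt E with hMdef
  have hM0 : 0 ≤ M := Real.sqrt_nonneg _
  have hM2 : M ^ 2 = E := Real.sq_sqrt hE0
  have hm' : (1 : ℝ) ≤ m := by exact_mod_cast hm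
  have hM : ∀ i < m, ‖x i‖ ≤ M := by
    intro i hi
    apply Real.le_sqrt_of_sq_le
    exact single_le_sum (f := fun i => ‖x i‖ ^ 2) (fun i _ => by positivity) (mem_range.2 hi)
  have hnorm : ∀ a b : ℂ, ‖χ * (a + ε * b)‖ ≤ ‖a‖ + ε * ‖b‖ := by
    intro a b
    rw [norm_mul, hχ, one_mul]
    refine (norm_add_le _ _).trans ?_
    rw [norm_mul, Complex.norm_real, Real.norm_of_nonneg hε0]
  have hτε : τ * ε * (m * (3 * M)) ≤ ε * (3 * M) := by
    have : τ * ε * (m * (3 * M)) = (τ * m) * (ε * (3 * M)) := by ring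
    rw [this]
    exact mul_le_of_le_one_left (by positivity) hτ
  have h3 : ∀ i, i < 2 * m → ‖x i‖ ≤ 3 * M := by
    intro i
    induction i using Nat.strong_induction_on with
    | _ i ih =>
      intro hi
      by_cases him : i < m
      · linarith [hM i him]
      · obtain ⟨j, rfl⟩ : ∃ j, i = j + m := ⟨i - m, by omega⟩
        have hj : j < m := by omega
        have a1 := hx j hj
        have a2 : ∑ k ∈ range m, ‖x (j + k)‖ ≤ m * (3 * M) := by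
          calc ∑ k ∈ range m, ‖x (j + k)‖ ≤ ∑ k ∈ range m, 3 * M :=
                sum_le_sum (fun k hk => ih _ (by have := mem_range.1 hk; omega)
                  (by have := mem_range.1 hk; omega))
            _ = _ := by simp
        have a3 : ‖x (j + 1)‖ ≤ 3 * M ∨ m = 1 := by
          by_cases h1 : m = 1
          · exact Or.inr h1
          · exact Or.inl (ih _ (by omega) (by omega))
        have a4 := hnorm (x j) (x (j + 1))
        have a5 : ‖x (j + m)‖ ≤ ‖x (j + m) - χ * (x j + ε * x (j + 1))‖ +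
            ‖χ * (x j + ε * x (j + 1))‖ := norm_le_norm_sub_add _ _
        have a6 := hM j hj
        have a7 : τ * ε * ∑ k ∈ range m, ‖x (j + k)‖ ≤ τ * ε * (m * (3 * M)) :=
          mul_le_mul_of_nonneg_left a2 (by positivity)
        rcases a3 with a3 | a3
        · have a8 : ε * ‖x (j + 1)‖ ≤ ε * (3 * M) := mul_le_mul_of_nonneg_left a3 hε0
          have a9 : ε * (3 * M) ≤ M := by nlinarith
          linarith
        · subst a3
          have a9 : ε * (3 * M) ≤ M := by nlinarith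
          have a10 : ε * ‖x (j + 1)‖ ≤ 1 / 3 * ‖x (j + 1)‖ :=
            mul_le_mul_of_nonneg_right hε (norm_nonneg _)
          linarith
  have herr : ∀ i < m, ‖x (i + m) - χ * (x i + ε * x (i + 1))‖ ≤ τ * ε * (m * (3 * M)) := by
    intro i hi
    refine (hx i hi).trans (mul_le_mul_of_nonneg_left ?_ (by positivity))
    calc ∑ k ∈ range m, ‖x (i + k)‖ ≤ ∑ k ∈ range m, 3 * M :=
          sum_le_sum (fun k hk => h3 _ (by have := mem_range.1 hk; omega))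
      _ = _ := by simp
  set v : ℕ → ℂ := fun i => if i < m then x i else χ * x 0 with hv
  have hvm : v m = χ * v 0 := by
    simp only [hv, lt_irrefl, if_false]
    rw [if_pos (by omega)]
  have hvi : ∀ i < m, v i = x i := fun i hi => by simp only [hv]; rw [if_pos hi]
  have h4 : ∀ i < m, ‖x (i + 1) - v (i + 1)‖ ≤ 6 * ε * M := by
    intro i hi
    by_cases h : i + 1 < m
    · rw [hvi _ h, sub_self, norm_zero]; positivity
    · have e : i + 1 = m := by omega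
      rw [e, hvm, hvi 0 (by omega)]
      have a1 := herr 0 (by omega)
      simp only [zero_add] at a1
      have a2 : x m - χ * x 0 = (x m - χ * (x 0 + ε * x 1)) + χ * (0 + ε * x 1) := by ring
      have a3 := hnorm 0 (x 1)
      have a4 : ‖x 1‖ ≤ 3 * M := h3 1 (by omega)
      have a5 : ε * ‖x 1‖ ≤ ε * (3 * M) := mul_le_mul_of_nonneg_left a4 hε0
      rw [a2]
      refine (norm_add_le _ _).trans ?_
      simp only [norm_zero] at a3
      linarith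
  set s := ε * (3 * τ * m + 6 * ε) with hs
  have hs0 : 0 ≤ s := by positivity
  have h5 : ∀ i < m, ‖x (i + m)‖ ≤ ‖v i + ε * v (i + 1)‖ + s * M := by
    intro i hi
    have a1 := herr i hi
    have a2 := h4 i hi
    have a3 : x (i + m) = (x (i + m) - χ * (x i + ε * x (i + 1))) + χ * (v i + ε * v (i + 1))
        + χ * (0 + ε * (x (i + 1) - v (i + 1))) := by rw [hvi i hi]; ring
    have a4 := hnorm 0 (x (i + 1) - v (i + 1))
    simp only [norm_zero] at a4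
    have a5 : ‖χ * (v i + ε * v (i + 1))‖ = ‖v i + ε * v (i + 1)‖ := by rw [norm_mul, hχ, one_mul]
    have a6 : ε * ‖x (i + 1) - v (i + 1)‖ ≤ ε * (6 * ε * M) := mul_le_mul_of_nonneg_left a2 hε0
    have a7 : ‖x (i + m)‖ ≤ ‖x (i + m) - χ * (x i + ε * x (i + 1))‖ + ‖χ * (v i + ε * v (i + 1))‖
        + ‖χ * (0 + ε * (x (i + 1) - v (i + 1)))‖ := by
      conv_lhs => rw [a3]
      exact norm_add₃_le
    have a8 : s * M = τ * ε * (m * (3 * M)) + ε * (6 * ε * M) := by rw [hs]; ring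
    linarith
  have h7 : ∑ i ∈ range m, ‖v i‖ ^ 2 = E := sum_congr rfl (fun i hi => by rw [hvi i (mem_range.1 hi)])
  have h8 : ∑ i ∈ range m, ‖v (i + 1)‖ ^ 2 = E := by
    have a1 := Finset.sum_range_succ (fun i => ‖v i‖ ^ 2) m
    have a2 := Finset.sum_range_succ' (fun i => ‖v i‖ ^ 2) m
    have a3 : ‖v m‖ = ‖v 0‖ := by rw [hvm, norm_mul, hχ, one_mul]
    rw [a3] at a1
    linarith
  have h9 := twisted_gap m χ hχ v hvm
  rw [h7] at h9
  set D := ∑ i ∈ range m, ‖v i - v (i + 1)‖ ^ 2 with hD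
  have h10 : κ * E ≤ D := by
    have a1 : (m : ℝ) ^ 2 * (κ * E) ≤ (m : ℝ) ^ 2 * D := by
      calc (m : ℝ) ^ 2 * (κ * E) = (κ * (m : ℝ) ^ 2) * E := by ring
        _ ≤ ‖1 - χ‖ ^ 2 * E := mul_le_mul_of_nonneg_right hκ hE0
        _ ≤ _ := h9
    exact le_of_mul_le_mul_left a1 (by positivity)
  have h11 : ∑ i ∈ range m, ‖v i + ε * v (i + 1)‖ ^ 2 = (1 + ε) * (E + ε * E) - ε * D := by
    simp only [norm_sq_identity]
    rw [sum_sub_distrib, ← mul_sum, sum_add_distrib, ← mul_sum, ← mul_sum, h7, h8]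
  have h12 : ∑ i ∈ range m, ‖x (i + m)‖ ^ 2 ≤
      ∑ i ∈ range m, ((1 + s) * ‖v i + ε * v (i + 1)‖ ^ 2 + (s + s ^ 2) * E) := by
    refine sum_le_sum (fun i hi => ?_)
    have a1 := h5 i (mem_range.1 hi)
    have a2 : ‖x (i + m)‖ ^ 2 ≤ (‖v i + ε * v (i + 1)‖ + s * M) ^ 2 :=
      pow_le_pow_left₀ (norm_nonneg _) a1 2
    rw [← hM2]
    nlinarith [mul_nonneg hs0 (sq_nonneg (‖v i + ε * v (i + 1)‖ - M))]
  rw [sum_add_distrib, ← mul_sum, h11] at h12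
  simp only [sum_const, card_range, nsmul_eq_mul] at h12
  have hs1 : s ≤ 1 := by
    rw [hs]; nlinarith
  have h13 : s * (4 + 2 * m) ≤ ε * κ / 2 := by
    calc s * (4 + 2 * m) = ε * ((3 * τ * m + 6 * ε) * (4 + 2 * m)) := by rw [hs]; ring
      _ ≤ ε * (κ / 2) := mul_le_mul_of_nonneg_left hθ hε0
      _ = _ := by ring
  have h14 : ε * (κ * E) ≤ ε * D := mul_le_mul_of_nonneg_left h10 hε0
  have h15 : (1 + s) * ((1 + ε) * (E + ε * E) - ε * D) ≤
      (1 + s) * ((1 + ε) * (E + ε * E) - ε * (κ * E)) :=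
    mul_le_mul_of_nonneg_left (by linarith) (by linarith)
  have h16 : s * ((1 + ε) ^ 2 - ε * κ) ≤ s * 4 := by
    apply mul_le_mul_of_nonneg_left _ hs0
    nlinarith [mul_nonneg hε0 hκ0]
  have h17 : (m : ℝ) * (s + s ^ 2) ≤ m * (2 * s) := by
    apply mul_le_mul_of_nonneg_left _ (by positivity)
    nlinarith
  have h18 : (1 + s) * ((1 + ε) ^ 2 - ε * κ) + m * (s + s ^ 2) ≤ (1 + ε) ^ 2 - ε * κ / 2 := by
    nlinarith
  calc ∑ i ∈ range m, ‖x (i + m)‖ ^ 2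
      ≤ (1 + s) * ((1 + ε) * (E + ε * E) - ε * (κ * E)) + m * ((s + s ^ 2) * E) := by linarith
    _ = ((1 + s) * ((1 + ε) ^ 2 - ε * κ) + m * (s + s ^ 2)) * E := by ring
    _ ≤ _ := mul_le_mul_of_nonneg_right h18 hE0

/-- iterated upper bound -/
lemma upper_iter (m : ℕ) (hm : 1 ≤ m) (χ : ℂ) (hχ : ‖χ‖ = 1) (ε τ κ : ℝ) (hε0 : 0 ≤ ε)
    (hε : ε ≤ 1 / 3) (hτ0 : 0 ≤ τ) (hτ : τ * m ≤ 1) (hκ0 : 0 ≤ κ) (hκ1 : κ ≤ 4)
    (hκ : κ * (m : ℝ) ^ 2 ≤ ‖1 - χ‖ ^ 2)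
    (hθ : (3 * τ * m + 6 * ε) * (4 + 2 * m) ≤ κ / 2) (hθ1 : 3 * τ * m + 6 * ε ≤ 1)
    (x : ℕ → ℂ) (P : ℕ)
    (hx : ∀ i < P * m, ‖x (i + m) - χ * (x i + ε * x (i + 1))‖ ≤
      τ * ε * ∑ k ∈ range m, ‖x (i + k)‖) :
    ∑ i ∈ range m, ‖x (i + P * m)‖ ^ 2 ≤
      ((1 + ε) ^ 2 - ε * κ / 2) ^ P * ∑ i ∈ range m, ‖x i‖ ^ 2 := by
  induction P with
  | zero => simp
  | succ P ih =>
    have h1 := ih (fun i hi => hx i (by nlinarith))
    have h2 := period_step m hm χ hχ ε τ κ hε0 hε hτ0 hτ hκ0 hκ hθ hθ1 (fun i => x (i + P * m))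
      (fun i hi => by
        have := hx (i + P * m) (by nlinarith)
        simpa only [add_right_comm i (P * m)] using this)
    have h3 : 0 ≤ (1 + ε) ^ 2 - ε * κ / 2 := by nlinarith
    calc ∑ i ∈ range m, ‖x (i + (P + 1) * m)‖ ^ 2 = ∑ i ∈ range m, ‖x (i + m + P * m)‖ ^ 2 :=
          sum_congr rfl (fun i _ => by congr 3; ring)
      _ ≤ _ := h2
      _ ≤ ((1 + ε) ^ 2 - ε * κ / 2) * (((1 + ε) ^ 2 - ε * κ / 2) ^ P * ∑ i ∈ range m, ‖x i‖ ^ 2) :=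
          mul_le_mul_of_nonneg_left h1 h3
      _ = _ := by ring

/-- iterated lower bound -/
lemma lower_iter (m : ℕ) (hm : 2 ≤ m) (ε ν : ℝ) (hε0 : 0 ≤ ε) (hν : 0 ≤ ν) (y : ℕ → ℝ) (N : ℕ)
    (h0 : ∀ i < m, ν ≤ y i) (hy : ∀ i, i + m < N → y i + ε * y (i + 1) ≤ y (i + m)) :
    ∀ t < N, (1 + ε) ^ (t / m) * ν ≤ y t := by
  intro t
  induction t using Nat.strong_induction_on with
  | _ t ih =>
    intro ht
    by_cases h : t < m
    · rw [Nat.div_eq_of_lt h]; simpa using h0 t h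
    · obtain ⟨j, rfl⟩ : ∃ j, t = j + m := ⟨t - m, by omega⟩
      have a1 := ih j (by omega) (by omega)
      have a2 := ih (j + 1) (by omega) (by omega)
      have a3 := hy j ht
      have a4 : (1 + ε) ^ (j / m) ≤ (1 + ε) ^ ((j + 1) / m) :=
        pow_le_pow_right₀ (by linarith) (Nat.div_le_div_right (by omega))
      have a5 : (1 + ε) ^ (j / m) * ν ≤ y (j + 1) :=
        (mul_le_mul_of_nonneg_right a4 hν).trans a2
      rw [Nat.add_div_right _ (by omega), pow_succ]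
      have a6 : ε * ((1 + ε) ^ (j / m) * ν) ≤ ε * y (j + 1) := mul_le_mul_of_nonneg_left a5 hε0
      nlinarith

end Pool.Agent.MP_269329_co.H81
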