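import Mathlib

namespace Pool.Agent.MP_269329_co.H81

/-- The step weight: `V z (2k) = z_k` for `1 ≤ k ≤ m`; the coordinate `z_k` is `z ⟨k-1, _⟩`. -/
noncomputable def V {m : ℕ} (z : Fin m → ℂ) (a : ℕ) : ℂ :=
  ∑ i : Fin m, if a = 2 * (i.val + 1) then z i else 0

/-- The vertex `j(t) = -n + x(1) + ... + x(t)` of the walk with list of steps `x`. -/
def vertex (n : ℕ) (x : List ℕ) (t : ℕ) : ℤ := -(n : ℤ) + ((x.take t).sum : ℕ)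

/-- Admissible positive walks from `-n` to `n` with steps in `{2, 4, ..., 2m}`. -/
def walks (m n : ℕ) : Set (List ℕ) :=
  {x | x ≠ [] ∧ (∀ a ∈ x, ∃ k : ℕ, 1 ≤ k ∧ k ≤ m ∧ a = 2 * k) ∧ x.sum = 2 * n ∧
    ∀ t : ℕ, 1 ≤ t → t < x.length → vertex n x t ≠ (n : ℤ) ∧ vertex n x t ≠ -(n : ℤ)}

/-- The weight `h(x)`. -/
noncomputable def weight {m : ℕ} (z : Fin m → ℂ) (n : ℕ) (x : List ℕ) : ℂ :=
  (∏ t ∈ Finset.Ico 1 x.length, ((n : ℂ) ^ 2 - ((vertex n x t : ℤ) : ℂ) ^ 2)⁻¹) *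
    (x.map (V z)).prod

/-- `A_n(z)`. -/
noncomputable def absSum {m : ℕ} (z : Fin m → ℂ) (n : ℕ) : ℝ :=
  ∑ᶠ x ∈ walks m n, ‖weight z n x‖

/-- `S_n(z)`. -/
noncomputable def signedSum {m : ℕ} (z : Fin m → ℂ) (n : ℕ) : ℂ :=
  ∑ᶠ x ∈ walks m n, weight z n x

/-- The set `W` of all `z` with `C(z) = ∞`. -/
def W (m : ℕ) : Set (Fin m → ℂ) :=
  {z | ¬ ∃ C : ℝ, ∀ n : ℕ, absSum z n ≤ C * ‖signedSum z n‖}

end Pool.Agent.MP_269329_co.H81
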