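import Pool.Agent.MP_269329_co.H81.Abstract

namespace Pool.Agent.MP_269329_co.H81

open Finset

lemma exists_w (m : ℕ) (hm : 1 ≤ m) (G r : ℝ) (Q : ℕ → ℝ) :
    ∃ w : ℕ → ℝ, (∀ i < m, w i = G ^ i) ∧ ∀ i, w (i + m) = r * w i / Q (i + m) := by
  refine ⟨fun i => G ^ (i % m) * ∏ j ∈ range (i / m), (r / Q (i % m + (j + 1) * m)), ?_, ?_⟩
  · intro i hi
    simp [Nat.mod_eq_of_lt hi, Nat.div_eq_of_lt hi]
  · intro i
    simp only [Nat.add_mod_right]
    rw [Nat.add_div_right _ (by omega), prod_range_succ]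
    have : i % m + (i / m + 1) * m = i + m := by
      have := Nat.mod_add_div i m
      nlinarith
    rw [this]
    ring

lemma w_bounds (m : ℕ) (hm : 1 ≤ m) (G r A : ℝ) (Q : ℕ → ℝ) (W : ℕ) (hG : 0 < G) (hr : 0 < r)
    (hA : 0 < A) (hGm : G ^ m = r / A) (hQ0 : ∀ i ≤ W, 0 < Q i) (hQA : ∀ i ≤ W, Q i ≤ A)
    (hQm : ∀ i j, i ≤ j → j ≤ W → Q j ≤ Q i)
    (w : ℕ → ℝ) (h0 : ∀ i < m, w i = G ^ i) (h1 : ∀ i, w (i + m) = r * w i / Q (i + m)) :
    (∀ i ≤ W, 0 < w i) ∧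
      ∀ i, i + 1 ≤ W → G * w i ≤ w (i + 1) ∧ w (i + 1) ≤ G * (A / Q (i + 1)) * w i := by
  have hpos : ∀ i ≤ W, 0 < w i := by
    intro i
    induction i using Nat.strong_induction_on with
    | _ i ih =>
      intro hi
      by_cases h : i < m
      · rw [h0 i h]; positivity
      · obtain ⟨j, rfl⟩ : ∃ j, i = j + m := ⟨i - m, by omega⟩
        rw [h1]
        have := ih j (by omega) (by omega)
        have := hQ0 _ hi
        positivity
  refine ⟨hpos, ?_⟩
  intro i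
  induction i using Nat.strong_induction_on with
  | _ i ih =>
    intro hi
    have q1 := hQ0 _ hi
    have q2 : 1 ≤ A / Q (i + 1) := (one_le_div q1).2 (hQA _ hi)
    by_cases h : i + 1 < m
    · rw [h0 _ h, h0 i (by omega), pow_succ]
      have : 0 < G ^ i * G := by positivity
      constructor
      · linarith
      · nlinarith
    · by_cases h' : i + 1 = m
      · have e1 := h1 0
        rw [zero_add, h0 0 (by omega), pow_zero, mul_one] at e1
        have e2 : G * w i = r / A := by rw [h0 i (by omega), ← hGm, ← h', pow_succ]; ring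
        rw [h'] at q1 q2 ⊢
        have e3 : w m = (A / Q m) * (r / A) := by rw [e1]; field_simp
        have e4 : 0 < r / A := by positivity
        constructor
        · rw [e2, e3]; nlinarith
        · rw [mul_right_comm, e2, e3]; linarith
      · obtain ⟨j, rfl⟩ : ∃ j, i = j + m := ⟨i - m, by omega⟩
        obtain ⟨b1, b2⟩ := ih j (by omega) (by omega)
        have e1 := h1 (j + 1)
        have e0 : j + 1 + m = j + m + 1 := by ring
        rw [e0] at e1
        rw [e1, h1 j]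
        have q3 := hQ0 (j + m) (by omega)
        have q4 := hQ0 (j + 1) (by omega)
        have q5 := hQm (j + m) (j + m + 1) (by omega) hi
        have q6 := hQm (j + 1) (j + m) (by omega) (by omega)
        have p1 := hpos j (by omega)
        have p2 := hpos (j + 1) (by omega)
        constructor
        · calc G * (r * w j / Q (j + m)) = r * (G * w j) / Q (j + m) := by ring
            _ ≤ r * w (j + 1) / Q (j + m) := by gcongr
            _ ≤ r * w (j + 1) / Q (j + m + 1) := by gcongr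
        · calc r * w (j + 1) / Q (j + m + 1) ≤ r * (G * (A / Q (j + 1)) * w j) / Q (j + m + 1) := by
                gcongr
            _ ≤ r * (G * (A / Q (j + m)) * w j) / Q (j + m + 1) := by gcongr
            _ = _ := by field_simp

lemma sum_reflect {R : Type*} [AddCommMonoid R] (m : ℕ) (f : ℕ → R) :
    ∑ k ∈ Icc 1 m, f k = ∑ l ∈ range m, f (m - l) := by
  rw [← Finset.sum_range_reflect]
  rw [range_eq_Ico, ← Finset.Ico_add_one_right_eq_Icc, Finset.sum_Ico_eq_sum_range,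
    Finset.sum_Ico_eq_sum_range]
  refine sum_congr (by simp) (fun i hi => ?_)
  have := mem_range.1 hi
  congr 1
  omega

lemma window (m : ℕ) (hm : 2 ≤ m) (N P : ℕ) (Z : ℕ → ℂ) (a : ℕ → ℂ) (b : ℕ → ℝ)
    (Q : ℕ → ℝ) (A G τ κ R γ ε : ℝ)
    (hZ1 : Z 1 ≠ 0) (hZm1 : Z (m - 1) ≠ 0) (hZm : Z m ≠ 0) (hR : ∀ k, ‖Z k‖ ≤ R)
    (hb0 : ∀ u, 0 ≤ b u) (hab : ∀ u, ‖a u‖ ≤ b u)
    (ha : ∀ i, 1 ≤ i → i ≤ (P + 2) * m →
      a (N + i) = ((Q i : ℝ) : ℂ)⁻¹ * ∑ k ∈ Icc 1 m, Z k * a (N + i - k))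
    (hb : ∀ i, 1 ≤ i → i ≤ (P + 2) * m →
      b (N + i) = (Q i)⁻¹ * ∑ k ∈ Icc 1 m, ‖Z k‖ * b (N + i - k))
    (hA : 0 < A) (hG : 0 < G) (hG1 : 2 * G ≤ 1) (hGm : G ^ m = ‖Z m‖ / A)
    (hQ0 : ∀ i ≤ (P + 2) * m, 0 < Q i) (hQA : ∀ i ≤ (P + 2) * m, Q i ≤ A)
    (hQm : ∀ i j, i ≤ j → j ≤ (P + 2) * m → Q j ≤ Q i)
    (hQτ : ∀ i ≤ (P + 2) * m, A / Q i ≤ 1 + τ)
    (hεdef : ε = G * ‖Z (m - 1)‖ / ‖Z m‖)
    (hGR : 4 * G * R ≤ τ * ‖Z (m - 1)‖)
    (hε : ε ≤ 1 / 3) (hτ0 : 0 ≤ τ) (hτ : τ * m ≤ 1) (hκ0 : 0 ≤ κ) (hκ1 : κ ≤ 4)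
    (hκ : κ * (m : ℝ) ^ 2 ≤
      ‖1 - (Z (m - 1) / ‖Z (m - 1)‖) ^ m * (Z m / ‖Z m‖)⁻¹ ^ m * (Z m / ‖Z m‖)‖ ^ 2)
    (hθ : (3 * τ * m + 6 * ε) * (4 + 2 * m) ≤ κ / 2) (hθ1 : 3 * τ * m + 6 * ε ≤ 1)
    (hc1 : ‖Z 1‖ / A ≤ 1) (hγ0 : 0 ≤ γ)
    (hγ : 4 * m * Real.exp (-(ε * κ / 8 * P)) * (A / ‖Z m‖) ^ 2 ≤ γ ^ 2 * (‖Z 1‖ / A) ^ (4 * m)) :
    ∀ i < m, ‖a (N + (i + (P + 1) * m))‖ ≤ γ * b (N + (i + (P + 1) * m)) := by
  have hr1 : 0 < ‖Z 1‖ := norm_pos_iff.2 hZ1
  have hrm1 : 0 < ‖Z (m - 1)‖ := norm_pos_iff.2 hZm1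
  have hrm : 0 < ‖Z m‖ := norm_pos_iff.2 hZm
  have hm' : (2 : ℝ) ≤ m := by exact_mod_cast hm
  have hε0 : 0 < ε := by rw [hεdef]; positivity
  obtain ⟨w, hw0, hw1⟩ := exists_w m (by omega) G ‖Z m‖ Q
  obtain ⟨hwpos, hwb⟩ := w_bounds m (by omega) G ‖Z m‖ A Q ((P + 2) * m) hG hrm hA hGm hQ0 hQA hQm
    w hw0 hw1
  have hτ1 : τ ≤ 1 := by nlinarith
  have hwb2 : ∀ i, i + 1 ≤ (P + 2) * m → w (i + 1) ≤ G * (1 + τ) * w i := by
    intro i hi
    refine (hwb i hi).2.trans ?_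
    have := hwpos i (by omega)
    have := hQτ _ hi
    gcongr
  have hwb3 : ∀ k i, i + k ≤ (P + 2) * m → w (i + k) ≤ (2 * G) ^ k * w i := by
    intro k
    induction k with
    | zero => intro i _; simp
    | succ k ih =>
      intro i hi
      have h1 := ih i (by omega)
      have h2 := hwb2 (i + k) (by omega)
      have h3 := hwpos (i + k) (by omega)
      calc w (i + (k + 1)) ≤ G * (1 + τ) * w (i + k) := h2
        _ ≤ G * (1 + 1) * w (i + k) := by gcongr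
        _ ≤ G * (1 + 1) * ((2 * G) ^ k * w i) := by gcongr
        _ = _ := by ring
  set ζ : ℂ := Z (m - 1) / ‖Z (m - 1)‖ with hζ
  set ξ : ℂ := Z m / ‖Z m‖ with hξ
  have hζ1 : ‖ζ‖ = 1 := by
    rw [hζ, norm_div, Complex.norm_real, norm_norm, div_self hrm1.ne']
  have hξ1 : ‖ξ‖ = 1 := by
    rw [hξ, norm_div, Complex.norm_real, norm_norm, div_self hrm.ne']
  have hξ0 : ξ ≠ 0 := by intro h; rw [h] at hξ1; simp at hξ1
  set σ : ℂ := ζ * ξ⁻¹ with hσ
  have hσ1 : ‖σ‖ = 1 := by rw [hσ, norm_mul, norm_inv, hζ1, hξ1]; simp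
  set χ : ℂ := ζ ^ m * ξ⁻¹ ^ m * ξ with hχ
  have hχσ : χ = σ ^ m * ξ := by rw [hχ, hσ, mul_pow]
  have hχ1 : ‖χ‖ = 1 := by rw [hχσ, norm_mul, norm_pow, hσ1, hξ1]; simp
  set α : ℕ → ℂ := fun i => a (N + i) / (w i : ℝ) with hα
  set β : ℕ → ℝ := fun i => b (N + i) / w i with hβ
  set x : ℕ → ℂ := fun i => σ ^ i * α i with hx
  have hxn : ∀ i, ‖x i‖ = ‖α i‖ := fun i => by
    simp only [hx]; rw [norm_mul, norm_pow, hσ1]; simp
  have hmC : ((‖Z m‖ : ℝ) : ℂ) ≠ 0 := by exact_mod_cast hrm.ne'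
  have hm1C : ((‖Z (m - 1)‖ : ℝ) : ℂ) ≠ 0 := by exact_mod_cast hrm1.ne'
  -- recurrence for α
  have hαrec : ∀ i < (P + 1) * m, α (i + m) =
      ∑ l ∈ range m, (Z (m - l) / ‖Z m‖ * ((w (i + l) / w i : ℝ) : ℂ)) * α (i + l) := by
    intro i hi
    have hi' : i + m ≤ (P + 2) * m := by nlinarith
    simp only [hα]
    rw [ha (i + m) (by omega) hi', sum_reflect, hw1, mul_sum, sum_div]
    refine sum_congr rfl (fun l hl => ?_)
    have hl' := mem_range.1 hl
    have e : N + (i + m) - (m - l) = N + (i + l) := by omega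
    rw [e]
    have p1 : ((w i : ℝ) : ℂ) ≠ 0 := by exact_mod_cast (hwpos i (by omega)).ne'
    have p2 : ((w (i + l) : ℝ) : ℂ) ≠ 0 := by exact_mod_cast (hwpos (i + l) (by omega)).ne'
    have p3 : ((Q (i + m) : ℝ) : ℂ) ≠ 0 := by exact_mod_cast (hQ0 _ hi').ne'
    push_cast
    field_simp
  have hβrec : ∀ i < (P + 1) * m, β i + ε * β (i + 1) ≤ β (i + m) := by
    intro i hi
    have hi' : i + m ≤ (P + 2) * m := by nlinarith
    have p1 := hwpos i (by omega)
    have p2 := hwpos (i + 1) (by omega)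
    have p3 := hQ0 _ hi'
    have e1 : β (i + m) = (∑ l ∈ range m, ‖Z (m - l)‖ * b (N + (i + l))) / (‖Z m‖ * w i) := by
      simp only [hβ]
      rw [hb (i + m) (by omega) hi', sum_reflect, hw1]
      have : ∑ l ∈ range m, ‖Z (m - l)‖ * b (N + (i + m) - (m - l)) =
          ∑ l ∈ range m, ‖Z (m - l)‖ * b (N + (i + l)) := by
        refine sum_congr rfl (fun l hl => ?_)
        have hl' := mem_range.1 hl
        have e : N + (i + m) - (m - l) = N + (i + l) := by omega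
        rw [e]
      rw [this]
      field_simp
    have e2 : ‖Z m‖ * b (N + i) + ‖Z (m - 1)‖ * b (N + (i + 1)) ≤
        ∑ l ∈ range m, ‖Z (m - l)‖ * b (N + (i + l)) := by
      have : ∑ l ∈ range 2, ‖Z (m - l)‖ * b (N + (i + l)) ≤
          ∑ l ∈ range m, ‖Z (m - l)‖ * b (N + (i + l)) :=
        sum_le_sum_of_subset_of_nonneg (range_mono hm)
          (fun l _ _ => mul_nonneg (norm_nonneg _) (hb0 _))
      simpa [sum_range_succ] using this
    have e3 := (hwb i (by omega)).1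
    have e4 : ε * β (i + 1) ≤ ‖Z (m - 1)‖ * b (N + (i + 1)) / (‖Z m‖ * w i) := by
      simp only [hβ]
      have := hb0 (N + (i + 1))
      calc ε * (b (N + (i + 1)) / w (i + 1)) ≤ ε * (b (N + (i + 1)) / (G * w i)) := by gcongr
        _ = _ := by rw [hεdef]; field_simp
    have e5 : β i = ‖Z m‖ * b (N + i) / (‖Z m‖ * w i) := by
      simp only [hβ]; field_simp
    rw [e1, e5]
    calc _ ≤ ‖Z m‖ * b (N + i) / (‖Z m‖ * w i) + ‖Z (m - 1)‖ * b (N + (i + 1)) / (‖Z m‖ * w i) := by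
          linarith
      _ = (‖Z m‖ * b (N + i) + ‖Z (m - 1)‖ * b (N + (i + 1))) / (‖Z m‖ * w i) := by ring
      _ ≤ _ := by gcongr
  have hxrec : ∀ i < (P + 1) * m, ‖x (i + m) - χ * (x i + ε * x (i + 1))‖ ≤
      τ * ε * ∑ k ∈ range m, ‖x (i + k)‖ := by
    intro i hi
    have hi' : i + m ≤ (P + 2) * m := by nlinarith
    have p1 := hwpos i (by omega)
    have e1 : x (i + m) - χ * (x i + ε * x (i + 1)) =
        σ ^ (i + m) * (α (i + m) - (ξ * α i + ε * ζ * α (i + 1))) := by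
      simp only [hx]
      rw [hχσ]
      have : ζ = σ * ξ := by rw [hσ]; field_simp
      rw [this]
      ring
    set d : ℕ → ℂ := fun l => if l = 0 then ξ else if l = 1 then ε * ζ else 0 with hd
    have e2 : ξ * α i + ε * ζ * α (i + 1) = ∑ l ∈ range m, d l * α (i + l) := by
      rw [← sum_subset (range_mono hm)]
      · simp [sum_range_succ, hd]
      · intro l _ hl
        have : ¬ l < 2 := fun h => hl (mem_range.2 h)
        simp only [hd]
        rw [if_neg (by omega), if_neg (by omega), zero_mul]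
    rw [e1, norm_mul, norm_pow, hσ1, one_pow, one_mul, hαrec i hi, e2, ← sum_sub_distrib, mul_sum]
    refine (norm_sum_le _ _).trans (sum_le_sum (fun l hl => ?_))
    have hl' := mem_range.1 hl
    rw [← sub_mul, norm_mul, hxn]
    refine mul_le_mul_of_nonneg_right ?_ (norm_nonneg _)
    simp only [hd]
    by_cases l0 : l = 0
    · subst l0
      simp only [if_true, add_zero, Nat.sub_zero]
      rw [div_self p1.ne']
      simp only [Complex.ofReal_one, mul_one]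
      rw [← hξ, sub_self, norm_zero]
      positivity
    · rw [if_neg l0]
      by_cases l1 : l = 1
      · subst l1
        simp only [if_true]
        have e3 : Z (m - 1) / ‖Z m‖ * ((w (i + 1) / w i : ℝ) : ℂ) - ε * ζ =
            ζ * ((‖Z (m - 1)‖ / ‖Z m‖ * (w (i + 1) / w i - G) : ℝ) : ℂ) := by
          rw [hεdef, hζ]
          push_cast
          field_simp
        have b1 := (hwb i (by omega)).1
        have b2 := hwb2 i (by omega)
        have b3 : G ≤ w (i + 1) / w i := by rw [le_div_iff₀ p1]; exact b1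
        have b4 : w (i + 1) / w i ≤ G * (1 + τ) := by rw [div_le_iff₀ p1]; exact b2
        rw [e3, norm_mul, hζ1, one_mul, Complex.norm_real, Real.norm_of_nonneg
          (mul_nonneg (by positivity) (by linarith))]
        calc ‖Z (m - 1)‖ / ‖Z m‖ * (w (i + 1) / w i - G) ≤ ‖Z (m - 1)‖ / ‖Z m‖ * (G * τ) := by
              apply mul_le_mul_of_nonneg_left (by linarith) (by positivity)
          _ = τ * ε := by rw [hεdef]; ring
      · rw [if_neg l1, sub_zero, norm_mul, norm_div, Complex.norm_real, Complex.norm_real, norm_norm]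
        have p2 := hwpos (i + l) (by omega)
        rw [Real.norm_of_nonneg (by positivity)]
        have b1 := hwb3 l i (by omega)
        have b2 : w (i + l) / w i ≤ (2 * G) ^ l := by rw [div_le_iff₀ p1]; exact b1
        have b3 : (2 * G) ^ l ≤ (2 * G) ^ 2 :=
          pow_le_pow_of_le_one (by positivity) hG1 (by omega)
        have b4 := hR (m - l)
        have b5 : 0 ≤ R := (norm_nonneg _).trans b4
        calc ‖Z (m - l)‖ / ‖Z m‖ * (w (i + l) / w i) ≤ R / ‖Z m‖ * (2 * G) ^ 2 := by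
              gcongr
              exact b2.trans b3
          _ = (4 * G * R) * (G / ‖Z m‖) := by ring
          _ ≤ (τ * ‖Z (m - 1)‖) * (G / ‖Z m‖) := by gcongr
          _ = τ * ε := by rw [hεdef]; ring
  have hup := upper_iter m (by omega) χ hχ1 ε τ κ hε0.le hε hτ0 hτ hκ0 hκ1 hκ hθ hθ1 x (P + 1) hxrec
  obtain ⟨i0, hi0, hmax⟩ := exists_max_image (range m) (fun i => b (N + i))
    ⟨0, mem_range.2 (by omega)⟩
  have hi0' := mem_range.1 hi0
  set B := b (N + i0) with hB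
  have hB0 : 0 ≤ B := hb0 _
  set c := ‖Z 1‖ / A with hc
  have hc0 : 0 < c := by positivity
  have h2m : 2 * m ≤ (P + 2) * m := by nlinarith
  have hstep : ∀ i, i + 1 ≤ 2 * m → c * b (N + i) ≤ b (N + (i + 1)) := by
    intro i hi
    rw [hb (i + 1) (by omega) (by omega)]
    have q1 := hQ0 (i + 1) (by omega)
    have q2 := hQA (i + 1) (by omega)
    have e1 : ‖Z 1‖ * b (N + (i + 1) - 1) ≤ ∑ k ∈ Icc 1 m, ‖Z k‖ * b (N + (i + 1) - k) :=
      single_le_sum (f := fun k => ‖Z k‖ * b (N + (i + 1) - k))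
        (fun k _ => mul_nonneg (norm_nonneg _) (hb0 _)) (mem_Icc.2 ⟨le_rfl, by omega⟩)
    have e2 : N + (i + 1) - 1 = N + i := by omega
    rw [e2] at e1
    have := hb0 (N + i)
    calc c * b (N + i) = A⁻¹ * (‖Z 1‖ * b (N + i)) := by rw [hc]; ring
      _ ≤ (Q (i + 1))⁻¹ * (‖Z 1‖ * b (N + i)) := by gcongr
      _ ≤ _ := by gcongr
  have hsteps : ∀ k, i0 + k ≤ 2 * m → c ^ k * B ≤ b (N + (i0 + k)) := by
    intro k
    induction k with
    | zero => intro _; simp [hB]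
    | succ k ih =>
      intro hk
      have h1 := ih (by omega)
      have h2 := hstep (i0 + k) (by omega)
      calc c ^ (k + 1) * B = c * (c ^ k * B) := by ring
        _ ≤ c * b (N + (i0 + k)) := by gcongr
        _ ≤ _ := h2
  set ν := c ^ (2 * m) * B with hν
  have hν0 : 0 ≤ ν := by positivity
  have hlow0 : ∀ i < m, ν ≤ β (i + m) := by
    intro i hi
    have h1 := hsteps (i + m - i0) (by omega)
    have e : i0 + (i + m - i0) = i + m := by omega
    rw [e] at h1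
    have h2 : c ^ (2 * m) ≤ c ^ (i + m - i0) := pow_le_pow_of_le_one hc0.le hc1 (by omega)
    have h3 := hwb3 (i + m) 0 (by omega)
    rw [zero_add, hw0 0 (by omega), pow_zero, mul_one] at h3
    have h4 : (2 * G) ^ (i + m) ≤ 1 := pow_le_one₀ (by positivity) hG1
    have h5 := hwpos (i + m) (by omega)
    simp only [hβ]
    rw [le_div_iff₀ h5]
    calc ν * w (i + m) ≤ ν * 1 := by gcongr; linarith
      _ = c ^ (2 * m) * B := by ring
      _ ≤ c ^ (i + m - i0) * B := by gcongr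
      _ ≤ _ := h1
  have hlow := lower_iter m hm ε ν hε0.le hν0 (fun i => β (i + m)) ((P + 1) * m) hlow0
    (fun i hi => by
      have := hβrec (i + m) hi
      simpa only [add_right_comm i m 1] using this)
  have hstart : ∑ i ∈ range m, ‖x i‖ ^ 2 ≤ m * (B * (A / ‖Z m‖)) ^ 2 := by
    calc ∑ i ∈ range m, ‖x i‖ ^ 2 ≤ ∑ i ∈ range m, (B * (A / ‖Z m‖)) ^ 2 := by
          refine sum_le_sum (fun i hi => pow_le_pow_left₀ (norm_nonneg _) ?_ 2)
          have hi' := mem_range.1 hi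
          rw [hxn]
          simp only [hα]
          rw [norm_div, Complex.norm_real, hw0 i hi', Real.norm_of_nonneg (by positivity)]
          have h1 : G ^ m ≤ G ^ i := pow_le_pow_of_le_one hG.le (by linarith) hi'.le
          have h2 := (hab (N + i)).trans (hmax i hi)
          calc ‖a (N + i)‖ / G ^ i ≤ B / G ^ m := by gcongr
            _ = _ := by rw [hGm]; field_simp
      _ = _ := by simp
  intro i hi
  have hi' : i + (P + 1) * m ≤ (P + 2) * m := by nlinarith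
  have p1 := hwpos _ hi'
  have l1 := hlow (i + P * m) (by nlinarith)
  have e1 : (i + P * m) / m = P := by
    rw [Nat.add_mul_div_right _ _ (by omega), Nat.div_eq_of_lt hi, zero_add]
  have e2 : i + P * m + m = i + (P + 1) * m := by ring
  simp only [e1, e2] at l1
  have l2 : ‖x (i + (P + 1) * m)‖ ^ 2 ≤ ∑ i ∈ range m, ‖x (i + (P + 1) * m)‖ ^ 2 :=
    single_le_sum (f := fun i => ‖x (i + (P + 1) * m)‖ ^ 2) (fun i _ => by positivity)
      (mem_range.2 hi)
  set Λ := (1 + ε) ^ 2 - ε * κ / 2 with hΛ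
  have hΛ0 : 0 ≤ Λ := by rw [hΛ]; nlinarith
  have hΛ4 : Λ ≤ 4 := by rw [hΛ]; nlinarith [mul_nonneg hε0.le hκ0]
  have hΛe : Λ ≤ (1 + ε) ^ 2 * Real.exp (-(ε * κ / 8)) := by
    have t1 : 1 - ε * κ / 8 ≤ Real.exp (-(ε * κ / 8)) := by
      linarith [Real.add_one_le_exp (-(ε * κ / 8))]
    have t2 : (1 + ε) ^ 2 ≤ 4 := by nlinarith
    have t3 : 0 ≤ ε * κ := mul_nonneg hε0.le hκ0
    calc Λ ≤ (1 + ε) ^ 2 * (1 - ε * κ / 8) := by rw [hΛ]; nlinarith
      _ ≤ _ := by gcongr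
  have l3 : Λ ^ (P + 1) ≤ 4 * (((1 + ε) ^ P) ^ 2 * Real.exp (-(ε * κ / 8 * P))) := by
    have t1 : Λ ^ P ≤ ((1 + ε) ^ 2 * Real.exp (-(ε * κ / 8))) ^ P := pow_le_pow_left₀ hΛ0 hΛe P
    have t2 : ((1 + ε) ^ 2 * Real.exp (-(ε * κ / 8))) ^ P =
        ((1 + ε) ^ P) ^ 2 * Real.exp (-(ε * κ / 8 * P)) := by
      rw [mul_pow, ← Real.exp_nat_mul, ← pow_mul, ← pow_mul, mul_comm 2 P]
      congr 2
      ring
    rw [pow_succ, mul_comm, ← t2]
    gcongr
  have l4 : ‖x (i + (P + 1) * m)‖ ^ 2 ≤ (γ * β (i + (P + 1) * m)) ^ 2 := by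
    calc ‖x (i + (P + 1) * m)‖ ^ 2 ≤ Λ ^ (P + 1) * ∑ i ∈ range m, ‖x i‖ ^ 2 := l2.trans hup
      _ ≤ 4 * (((1 + ε) ^ P) ^ 2 * Real.exp (-(ε * κ / 8 * P))) * (m * (B * (A / ‖Z m‖)) ^ 2) := by
          gcongr
      _ = (4 * m * Real.exp (-(ε * κ / 8 * P)) * (A / ‖Z m‖) ^ 2) * (((1 + ε) ^ P) ^ 2 * B ^ 2) := by
          ring
      _ ≤ (γ ^ 2 * c ^ (4 * m)) * (((1 + ε) ^ P) ^ 2 * B ^ 2) := by gcongr
      _ = (γ * ((1 + ε) ^ P * ν)) ^ 2 := by rw [hν]; ring
      _ ≤ _ := by gcongr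
  have l5 : ‖x (i + (P + 1) * m)‖ ≤ γ * β (i + (P + 1) * m) :=
    (pow_le_pow_iff_left₀ (norm_nonneg _)
      (mul_nonneg hγ0 (div_nonneg (hb0 _) p1.le)) (by norm_num)).1 l4
  rw [hxn] at l5
  simp only [hα, hβ] at l5
  rw [norm_div, Complex.norm_real, Real.norm_of_nonneg p1.le, ← mul_div_assoc,
    div_le_div_iff_of_pos_right p1] at l5
  exact l5

end Pool.Agent.MP_269329_co.H81
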