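import Pool.Agent.MP_269329_co.H81.Walks
import Pool.Agent.MP_269329_co.H81.Window

namespace Pool.Agent.MP_269329_co.H81

open Finset Filter MeasureTheory

lemma T_abs_nonneg (p Z : ℕ → ℝ) (hp : ∀ u, 0 ≤ p u) (hZ : ∀ u, 0 ≤ Z u) (m u : ℕ) :
    0 ≤ T p Z m u := by
  induction u using Nat.strong_induction_on with
  | _ u ih =>
    rcases Nat.eq_zero_or_pos u with rfl | hu
    · rw [T_zero]; norm_num
    · rw [T_pos _ _ _ hu]
      refine mul_nonneg (hp _) (sum_nonneg (fun k hk => mul_nonneg (hZ _) (ih _ ?_)))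
      have := (mem_Icc.1 hk).1
      omega

lemma norm_T_step (p : ℕ → ℝ) (Z : ℕ → ℂ) (m : ℕ) (γ : ℝ) {u : ℕ} (hu : 1 ≤ u)
    (h : ∀ k ∈ Icc 1 (min m u), ‖T (fun v => (p v : ℂ)) Z m (u - k)‖ ≤
      γ * T (fun v => |p v|) (fun a => ‖Z a‖) m (u - k)) :
    ‖T (fun v => (p v : ℂ)) Z m u‖ ≤ γ * T (fun v => |p v|) (fun a => ‖Z a‖) m u := by
  rw [T_pos _ _ _ hu, T_pos _ _ _ hu, norm_mul, Complex.norm_real, Real.norm_eq_abs, mul_left_comm]
  refine mul_le_mul_of_nonneg_left ?_ (abs_nonneg _)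
  rw [mul_sum]
  refine (norm_sum_le _ _).trans (sum_le_sum (fun k hk => ?_))
  rw [norm_mul, mul_left_comm]
  exact mul_le_mul_of_nonneg_left (h k hk) (norm_nonneg _)

lemma norm_T_le (p : ℕ → ℝ) (Z : ℕ → ℂ) (m u : ℕ) :
    ‖T (fun v => (p v : ℂ)) Z m u‖ ≤ T (fun v => |p v|) (fun a => ‖Z a‖) m u := by
  induction u using Nat.strong_induction_on with
  | _ u ih =>
    rcases Nat.eq_zero_or_pos u with rfl | hu
    · rw [T_zero, T_zero]; norm_num
    · have := norm_T_step p Z m 1 hu (fun k hk => by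
        rw [one_mul]
        refine ih _ ?_
        have := (mem_Icc.1 hk).1
        omega)
      rwa [one_mul] at this

lemma norm_T_propagate (p : ℕ → ℝ) (Z : ℕ → ℂ) (m : ℕ) (hm : 1 ≤ m) (γ : ℝ) (s : ℕ)
    (h : ∀ i < m, ‖T (fun v => (p v : ℂ)) Z m (s + i)‖ ≤
      γ * T (fun v => |p v|) (fun a => ‖Z a‖) m (s + i)) :
    ∀ u, s ≤ u → ‖T (fun v => (p v : ℂ)) Z m u‖ ≤ γ * T (fun v => |p v|) (fun a => ‖Z a‖) m u := by
  intro u
  induction u using Nat.strong_induction_on with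
  | _ u ih =>
    intro hu
    by_cases h1 : u < s + m
    · have := h (u - s) (by omega)
      rwa [Nat.add_sub_cancel' hu] at this
    · refine norm_T_step p Z m γ (by omega) (fun k hk => ?_)
      have := mem_Icc.1 hk
      exact ih _ (by omega) (by omega)

lemma T_abs_pos (n m : ℕ) (hm : 1 ≤ m) (Z : ℕ → ℂ) (hZ : Z 2 ≠ 0) :
    ∀ u ≤ n, 0 < T (fun v => |psi n v|) (fun a => ‖Z a‖) m u := by
  intro u
  induction u with
  | zero => intro _; rw [T_zero]; norm_num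
  | succ u ih =>
    intro hu
    rw [T_pos _ _ _ (by omega)]
    refine mul_pos ?_ ?_
    · rw [abs_pos]
      unfold psi
      split_ifs with h
      · norm_num
      · have h1 : u + 1 < n := by omega
        have h2 : ((u + 1 : ℕ) : ℝ) < n := by exact_mod_cast h1
        have h3 : (0 : ℝ) < ((u + 1 : ℕ) : ℝ) := by positivity
        apply inv_ne_zero
        apply mul_ne_zero
        · push_cast at h3 ⊢; linarith
        · push_cast at h2 ⊢; linarith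
    · have h0 := ih (by omega)
      refine lt_of_lt_of_le ?_ (single_le_sum
        (f := fun k => ‖Z (2 * k)‖ * T (fun v => |psi n v|) (fun a => ‖Z a‖) m (u + 1 - k))
        (fun k _ => mul_nonneg (norm_nonneg _)
          (T_abs_nonneg _ _ (fun _ => abs_nonneg _) (fun _ => norm_nonneg _) _ _))
        (mem_Icc.2 ⟨le_rfl, by omega⟩ : 1 ∈ Icc 1 (min m (u + 1))))
      simp only [mul_one, Nat.add_sub_cancel]
      exact mul_pos (norm_pos_iff.2 hZ) h0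

lemma norm_V_le {m : ℕ} (z : Fin m → ℂ) (a : ℕ) : ‖V z a‖ ≤ ∑ i, ‖z i‖ := by
  unfold V
  refine (norm_sum_le _ _).trans (sum_le_sum (fun i _ => ?_))
  split_ifs <;> simp

lemma V_eq {m : ℕ} (z : Fin m → ℂ) (i : Fin m) : V z (2 * (i.val + 1)) = z i := by
  unfold V
  rw [sum_eq_single i]
  · simp
  · intro j _ hj
    rw [if_neg]
    intro h
    apply hj
    ext
    omega
  · simp

lemma ev_small (c δ : ℝ) (hδ : 0 < δ) (k : ℕ) (hk : k ≠ 0) :
    ∀ᶠ j : ℕ in atTop, c / (j : ℝ) ^ k ≤ δ := by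
  have h1 : Tendsto (fun j : ℕ => ((j : ℝ) ^ k)) atTop atTop :=
    (tendsto_pow_atTop hk).comp tendsto_natCast_atTop_atTop
  have h2 : Tendsto (fun j : ℕ => c / ((j : ℝ) ^ k)) atTop (nhds 0) := h1.const_div_atTop c
  exact h2.eventually (ge_mem_nhds hδ)

lemma ev_exp (c b δ : ℝ) (hb : 0 < b) (hδ : 0 < δ) (k : ℕ) :
    ∀ᶠ j : ℕ in atTop, c * ((j : ℝ) ^ k * Real.exp (-b * j)) ≤ δ := by
  have h1 := (tendsto_rpow_mul_exp_neg_mul_atTop_nhds_zero (k : ℝ) b hb).comp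
    tendsto_natCast_atTop_atTop
  have h2 : Tendsto (fun j : ℕ => c * ((j : ℝ) ^ k * Real.exp (-b * j))) atTop (nhds (c * 0)) := by
    refine Tendsto.const_mul c ?_
    simpa [Function.comp_def] using h1
  rw [mul_zero] at h2
  exact h2.eventually (ge_mem_nhds hδ)

theorem pointwise (m : ℕ) (hm : 3 ≤ m) (z : Fin m → ℂ) (Z : ℕ → ℂ) (hZ : ∀ k, Z k = V z (2 * k))
    (hZ1 : Z 1 ≠ 0) (hZm1 : Z (m - 1) ≠ 0) (hZm : Z m ≠ 0)
    (hχ : (Z (m - 1) / ‖Z (m - 1)‖) ^ m * (Z m / ‖Z m‖)⁻¹ ^ m * (Z m / ‖Z m‖) ≠ 1) :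
    z ∈ W m := by
  rintro ⟨C, hC⟩
  have hr1 : 0 < ‖Z 1‖ := norm_pos_iff.2 hZ1
  have hrm1 : 0 < ‖Z (m - 1)‖ := norm_pos_iff.2 hZm1
  have hrm : 0 < ‖Z m‖ := norm_pos_iff.2 hZm
  have hm' : (3 : ℝ) ≤ m := by exact_mod_cast hm
  set χ := (Z (m - 1) / ‖Z (m - 1)‖) ^ m * (Z m / ‖Z m‖)⁻¹ ^ m * (Z m / ‖Z m‖) with hχdef
  have hχ1 : ‖χ‖ = 1 := by
    rw [hχdef]
    simp [norm_pow, hrm1.ne', hrm.ne']
  have hχ0 : 0 < ‖1 - χ‖ := norm_pos_iff.2 (sub_ne_zero.2 hχ.symm)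
  have hχ2 : ‖1 - χ‖ ≤ 2 := by
    have := norm_sub_le 1 χ
    rw [hχ1, norm_one] at this
    linarith
  set κ := ‖1 - χ‖ ^ 2 / (m : ℝ) ^ 2 with hκ
  have hκ0 : 0 < κ := by positivity
  have hκ1 : κ ≤ 4 := by
    rw [hκ, div_le_iff₀ (by positivity)]
    nlinarith
  have hκ2 : κ * (m : ℝ) ^ 2 ≤ ‖1 - χ‖ ^ 2 := by rw [hκ]; field_simp; rfl
  set τ := κ / (12 * m * (4 + 2 * m)) with hτ
  have hτ0 : 0 < τ := by positivity
  have hτ1 : 3 * τ * m * (4 + 2 * m) = κ / 4 := by rw [hτ]; field_simp; norm_num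
  have hτ2 : 3 * τ * m ≤ 1 / 10 := by
    have : 0 ≤ 3 * τ * m := by positivity
    nlinarith
  set R := ∑ i, ‖z i‖ with hR
  have hRZ : ∀ k, ‖Z k‖ ≤ R := fun k => by rw [hZ]; exact norm_V_le z _
  set γ := 1 / (2 * (|C| + 1)) with hγ
  have hγ0 : 0 < γ := by positivity
  obtain ⟨ρ, hρ0, hρ⟩ : ∃ ρ : ℝ, 0 < ρ ∧ ρ ^ m = ‖Z m‖ / 4 :=
    ⟨(‖Z m‖ / 4) ^ ((m : ℝ)⁻¹), by positivity, Real.rpow_inv_natCast_pow (by positivity) (by omega)⟩
  set c := ρ * ‖Z (m - 1)‖ / ‖Z m‖ with hc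
  have hc0 : 0 < c := by positivity
  have e1 := ev_small ρ (1 / 2) (by norm_num) 4 (by norm_num)
  have e2 := ev_small (4 * ρ * R) (τ * ‖Z (m - 1)‖) (by positivity) 4 (by norm_num)
  have e3 := ev_small c (κ / (24 * (4 + 2 * m))) (by positivity) 4 (by norm_num)
  have e4 := ev_small (‖Z 1‖ / 4) 1 (by norm_num) (4 * m) (by omega)
  have e5 := ev_small (8 * (m : ℝ) ^ 2) τ hτ0 2 (by norm_num)
  have e6 := ev_exp (4 * m * (4 / ‖Z m‖) ^ 2) (c * κ / 8) (γ ^ 2 * (‖Z 1‖ / 4) ^ (4 * m))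
    (by positivity) (by positivity) (4 * m * 2 + 4 * m * (4 * m))
  have e7 : ∀ᶠ j : ℕ in atTop, 2 * m + 1 ≤ j := eventually_ge_atTop _
  obtain ⟨j, f1, f2, f3, f4, f5, f6, f7⟩ :=
    (e1.and (e2.and (e3.and (e4.and (e5.and (e6.and e7)))))).exists
  have hj0 : (0 : ℝ) < j := by exact_mod_cast (by omega : 0 < j)
  set N := j ^ (2 * m) with hN
  set P := j ^ 5 with hP
  have hP2 : 2 ≤ P := by
    have : 2 ^ 5 ≤ j ^ 5 := Nat.pow_le_pow_left (by omega) 5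
    omega
  have hN6 : j ^ 6 ≤ N := Nat.pow_le_pow_right (by omega) (by omega)
  have hPm : (P + 2) * m ≤ 2 * m * P := by nlinarith
  have hPN : 2 * m * P < N := by
    have : j ^ 6 = j * P := by rw [hP]; ring
    nlinarith
  have hNR : (N : ℝ) = (j : ℝ) ^ (2 * m) := by rw [hN]; push_cast; rfl
  have hN0 : (0 : ℝ) < N := by rw [hNR]; positivity
  have hA : 4 * (N : ℝ) ^ 2 = 4 * (j : ℝ) ^ (4 * m) := by rw [hNR, ← pow_mul]; congr 2; ring
  have hiN : ∀ i ≤ (P + 2) * m, 2 * (i : ℝ) ^ 2 ≤ τ * (N : ℝ) ^ 2 := by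
    intro i hi
    have a1 : (i : ℝ) ≤ 2 * m * (j : ℝ) ^ 5 := by exact_mod_cast hi.trans hPm
    have a2 : (j : ℝ) ^ 6 ≤ N := by exact_mod_cast hN6
    have a3 : 8 * (m : ℝ) ^ 2 ≤ τ * (j : ℝ) ^ 2 := by rwa [div_le_iff₀ (by positivity)] at f5
    calc 2 * (i : ℝ) ^ 2 ≤ 2 * (2 * m * (j : ℝ) ^ 5) ^ 2 := by gcongr
      _ = 8 * (m : ℝ) ^ 2 * (j : ℝ) ^ 10 := by ring
      _ ≤ τ * (j : ℝ) ^ 2 * (j : ℝ) ^ 10 := by gcongr
      _ = τ * ((j : ℝ) ^ 6) ^ 2 := by ring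
      _ ≤ _ := by gcongr
  have hτ3 : τ ≤ 1 / 90 := by nlinarith
  have hQpos : ∀ i ≤ (P + 2) * m, 0 < 4 * ((N : ℝ) ^ 2 - (i : ℝ) ^ 2) := by
    intro i hi
    have := hiN i hi
    have : 0 < (N : ℝ) ^ 2 := by positivity
    nlinarith
  have hpsi : ∀ i, 1 ≤ i → i ≤ (P + 2) * m →
      psi (2 * N) (2 * (N + i)) = (4 * ((N : ℝ) ^ 2 - (i : ℝ) ^ 2))⁻¹ := by
    intro i h1 h2
    unfold psi
    rw [if_neg (by omega)]
    push_cast
    congr 1
    ring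
  have hε : c / (j : ℝ) ^ 4 = ρ / (j : ℝ) ^ 4 * ‖Z (m - 1)‖ / ‖Z m‖ := by rw [hc]; ring
  have hε6 : 6 * (c / (j : ℝ) ^ 4) * (4 + 2 * m) ≤ κ / 4 := by
    have := (le_div_iff₀ (by positivity)).1 f3
    linarith
  have hε7 : 6 * (c / (j : ℝ) ^ 4) ≤ 1 / 10 := by
    have : 0 ≤ 6 * (c / (j : ℝ) ^ 4) := by positivity
    nlinarith
  have key := window m (by omega) N P Z
    (T (fun v => (psi (2 * N) v : ℂ)) (V z) m)
    (T (fun v => |psi (2 * N) v|) (fun a => ‖V z a‖) m)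
    (fun i => 4 * ((N : ℝ) ^ 2 - (i : ℝ) ^ 2)) (4 * (N : ℝ) ^ 2) (ρ / (j : ℝ) ^ 4) τ κ R γ
    (c / (j : ℝ) ^ 4) hZ1 hZm1 hZm hRZ
    (T_abs_nonneg _ _ (fun _ => abs_nonneg _) (fun _ => norm_nonneg _) _)
    (norm_T_le _ _ _)
    (fun i h1 h2 => by
      rw [T_pos _ _ _ (by omega), hpsi i h1 h2, min_eq_left (by nlinarith)]
      simp only [hZ]
      push_cast
      rfl)
    (fun i h1 h2 => by
      rw [T_pos _ _ _ (by omega), hpsi i h1 h2, min_eq_left (by nlinarith),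
        abs_of_pos (inv_pos.2 (hQpos i h2))]
      simp only [hZ])
    (by positivity) (by positivity) (by linarith)
    (by rw [div_pow, hρ, hA, ← pow_mul]; field_simp)
    hQpos
    (fun i _ => by nlinarith [sq_nonneg (i : ℝ)])
    (fun i k hik _ => by
      have : (i : ℝ) ≤ k := by exact_mod_cast hik
      have : (i : ℝ) ^ 2 ≤ (k : ℝ) ^ 2 := by gcongr
      linarith)
    (fun i hi => by
      rw [div_le_iff₀ (hQpos i hi)]
      have := hiN i hi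
      have h2 : 0 ≤ (i : ℝ) ^ 2 := sq_nonneg _
      nlinarith)
    hε
    (by calc 4 * (ρ / (j : ℝ) ^ 4) * R = 4 * ρ * R / (j : ℝ) ^ 4 := by ring
          _ ≤ _ := f2)
    (by linarith) hτ0.le (by linarith) hκ0.le hκ1 hκ2 (by nlinarith) (by linarith)
    (by rw [hA, ← div_div]; exact f4) hγ0.le
    (by
      rw [hA]
      have a1 : c / (j : ℝ) ^ 4 * κ / 8 * (P : ℝ) = c * κ / 8 * j := by
        rw [hP]; push_cast; field_simp
      rw [a1]
      have a2 : (0 : ℝ) < ((j : ℝ) ^ (4 * m)) ^ (4 * m) := by positivity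
      have a3 : γ ^ 2 * (‖Z 1‖ / (4 * (j : ℝ) ^ (4 * m))) ^ (4 * m) =
          γ ^ 2 * (‖Z 1‖ / 4) ^ (4 * m) / ((j : ℝ) ^ (4 * m)) ^ (4 * m) := by
        rw [← div_div, div_pow (‖Z 1‖ / 4)]; ring
      rw [a3, le_div_iff₀ a2]
      refine le_trans (le_of_eq ?_) f6
      rw [pow_add, pow_mul, pow_mul (j : ℝ) (4 * m) (4 * m), neg_mul]
      ring)
  have key2 := norm_T_propagate (psi (2 * N)) (V z) m (by omega) γ (N + (P + 1) * m)
    (fun i hi => by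
      have := key i hi
      rwa [add_comm i, ← add_assoc] at this) (2 * N) (by nlinarith)
  have hn1 : 1 ≤ 2 * N := by omega
  have hpos := T_abs_pos (2 * N) m (by omega) (V z) (by rw [hZ] at hZ1; exact hZ1) (2 * N) le_rfl
  have hC' := hC (2 * N)
  rw [absSum_eq z hn1, signedSum_eq z hn1] at hC'
  set b := T (fun v => |psi (2 * N) v|) (fun a => ‖V z a‖) m (2 * N)
  set a := ‖T (fun v => (psi (2 * N) v : ℂ)) (V z) m (2 * N)‖
  have a0 : 0 ≤ a := norm_nonneg _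
  have t1 : C * a ≤ |C| * a := mul_le_mul_of_nonneg_right (le_abs_self C) a0
  have t2 : |C| * a ≤ |C| * (γ * b) := mul_le_mul_of_nonneg_left key2 (abs_nonneg C)
  have t3 : |C| * γ ≤ 1 / 2 := by
    rw [hγ, mul_one_div, div_le_iff₀ (by positivity)]
    linarith
  nlinarith

lemma null_of_slices {n : ℕ} (i : Fin (n + 1)) (S : Set (Fin (n + 1) → ℂ)) (hS : MeasurableSet S)
    (h : ∀ y : Fin (n + 1) → ℂ, volume {w : ℂ | Function.update y i w ∈ S} = 0) :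
    volume S = 0 := by
  have hp := (volume_preserving_piFinSuccAbove (fun _ : Fin (n + 1) => ℂ) i).symm
  rw [← hp.measure_preimage hS.nullMeasurableSet, Measure.volume_eq_prod,
    Measure.prod_apply_symm (hp.measurable hS)]
  have : ∀ y : Fin n → ℂ, volume ((fun w : ℂ => (w, y)) ⁻¹'
      ((MeasurableEquiv.piFinSuccAbove (fun _ : Fin (n + 1) => ℂ) i).symm ⁻¹' S)) = 0 := by
    intro y
    rw [← h (Fin.insertNth i (0 : ℂ) y)]
    congr 1
    ext w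
    simp [MeasurableEquiv.piFinSuccAbove, Fin.update_insertNth, Fin.insertNthEquiv]
  simp only [this, lintegral_zero]

lemma slice_null (m : ℕ) (hm : 1 ≤ m) (η : ℂ) :
    volume {w : ℂ | (w / ‖w‖) ^ m * η = 1} = 0 := by
  have hfin : {u : ℂ | u ^ m * η = 1}.Finite := by
    have hp : (Polynomial.X ^ m * Polynomial.C η - 1 : Polynomial ℂ) ≠ 0 := by
      intro h
      have := congrArg (Polynomial.eval 0) h
      simp [zero_pow (by omega : m ≠ 0)] at this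
    refine (Polynomial.rootSet_finite (Polynomial.X ^ m * Polynomial.C η - 1 : Polynomial ℂ) ℂ).subset ?_
    intro u hu
    rw [Polynomial.mem_rootSet]
    refine ⟨hp, ?_⟩
    simp only [Set.mem_ofPred_eq] at hu
    simp [mul_comm η, hu]
  refine measure_mono_null (t := ⋃ u ∈ {u : ℂ | u ^ m * η = 1}, (Submodule.span ℝ {u} : Set ℂ)) ?_ ?_
  · intro w hw
    simp only [Set.mem_iUnion]
    refine ⟨w / ‖w‖, hw, ?_⟩
    rw [SetLike.mem_coe, Submodule.mem_span_singleton]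
    refine ⟨‖w‖, ?_⟩
    by_cases h0 : w = 0
    · simp [h0]
    · have : ((‖w‖ : ℝ) : ℂ) ≠ 0 := by exact_mod_cast (norm_ne_zero_iff.2 h0)
      rw [Complex.real_smul]
      field_simp
  · rw [measure_biUnion_null_iff hfin.countable]
    intro u _
    apply Measure.addHaar_submodule
    intro h
    have h1 : Module.finrank ℝ (Submodule.span ℝ ({u} : Set ℂ)) ≤ 1 := by
      simpa using finrank_span_le_card (R := ℝ) ({u} : Set ℂ)
    rw [h, finrank_top, Complex.finrank_real_complex] at h1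
    omega

theorem ae_mem_W (m : ℕ) (hm : 3 ≤ m) : ∀ᵐ z : Fin m → ℂ, z ∈ W m := by
  obtain ⟨n, rfl⟩ : ∃ n, m = n + 1 := ⟨m - 1, by omega⟩
  let i0 : Fin (n + 1) := ⟨0, by omega⟩
  let i1 : Fin (n + 1) := ⟨n - 1, by omega⟩
  let i2 : Fin (n + 1) := ⟨n, by omega⟩
  have h12 : i2 ≠ i1 := by
    intro h
    have := congrArg Fin.val h
    simp only [i1, i2] at this
    omega
  have a0 : ∀ᵐ z : Fin (n + 1) → ℂ, z i0 ≠ 0 := Measure.ae_eval_ne _ i0 0
  have a1 : ∀ᵐ z : Fin (n + 1) → ℂ, z i1 ≠ 0 := Measure.ae_eval_ne _ i1 0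
  have a2 : ∀ᵐ z : Fin (n + 1) → ℂ, z i2 ≠ 0 := Measure.ae_eval_ne _ i2 0
  have a3 : ∀ᵐ z : Fin (n + 1) → ℂ,
      (z i1 / ‖z i1‖) ^ (n + 1) * (z i2 / ‖z i2‖)⁻¹ ^ (n + 1) * (z i2 / ‖z i2‖) ≠ 1 := by
    rw [ae_iff]
    simp only [not_not]
    apply null_of_slices i1
    · apply measurableSet_eq_fun _ measurable_const
      fun_prop
    · intro y
      simp only [Set.mem_ofPred_eq, Function.update_self, Function.update_of_ne h12, mul_assoc]
      exact slice_null (n + 1) (by omega) _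
  filter_upwards [a0, a1, a2, a3] with z b0 b1 b2 b3
  have c0 : V z (2 * 1) = z i0 := V_eq z i0
  have c1 : V z (2 * (n + 1 - 1)) = z i1 := by
    rw [← V_eq z i1]; congr 2; simp only [i1]; omega
  have c2 : V z (2 * (n + 1)) = z i2 := V_eq z i2
  refine pointwise (n + 1) hm z (fun k => V z (2 * k)) (fun _ => rfl) ?_ ?_ ?_ ?_
  · rw [c0]; exact b0
  · rw [c1]; exact b1
  · rw [c2]; exact b2
  · rw [c1, c2]; exact b3

end Pool.Agent.MP_269329_co.H81
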