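import Pool.Agent.MP_269329_co.H81.Defs

namespace Pool.Agent.MP_269329_co.H81

open Finset

/-- lists of admissible steps with total `2u` -/
def L (m u : ℕ) : Set (List ℕ) :=
  {x | (∀ a ∈ x, ∃ k : ℕ, 1 ≤ k ∧ k ≤ m ∧ a = 2 * k) ∧ x.sum = 2 * u}

lemma L_zero (m : ℕ) : L m 0 = {[]} := by
  ext x
  simp only [L, Set.mem_ofPred_eq, Set.mem_singleton_iff]
  constructor
  · rintro ⟨h1, h2⟩
    cases x with
    | nil => rfl
    | cons a y =>
      obtain ⟨k, hk1, _, rfl⟩ := h1 a (by simp)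
      simp at h2
      omega
  · rintro rfl
    simp

lemma mem_L_pos {m u : ℕ} (hu : 1 ≤ u) (x : List ℕ) :
    x ∈ L m u ↔ ∃ k ∈ Icc 1 (min m u), ∃ y ∈ L m (u - k), (2 * k) :: y = x := by
  simp only [L, Set.mem_ofPred_eq, mem_Icc]
  constructor
  · rintro ⟨h1, h2⟩
    cases x with
    | nil => simp at h2; omega
    | cons a y =>
      obtain ⟨k, hk1, hk2, rfl⟩ := h1 a (by simp)
      simp only [List.sum_cons] at h2
      refine ⟨k, ⟨hk1, by omega⟩, y, ⟨fun a ha => h1 a (by simp [ha]), by omega⟩, rfl⟩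
  · rintro ⟨k, ⟨hk1, hk2⟩, y, ⟨h1, h2⟩, rfl⟩
    refine ⟨?_, ?_⟩
    · intro a ha
      rcases List.mem_cons.1 ha with rfl | ha
      · exact ⟨k, hk1, by omega, rfl⟩
      · exact h1 a ha
    · simp only [List.sum_cons]; omega

lemma L_finite (m u : ℕ) : (L m u).Finite := by
  induction u using Nat.strong_induction_on with
  | _ u ih =>
    rcases Nat.eq_zero_or_pos u with rfl | hu
    · rw [L_zero]; exact Set.finite_singleton _
    · have : L m u = ⋃ k ∈ (Icc 1 (min m u) : Finset ℕ), (fun y => (2 * k) :: y) '' L m (u - k) := by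
        ext x
        rw [mem_L_pos hu]
        simp only [Set.mem_iUnion, Set.mem_image, exists_prop]
      rw [this]
      refine Set.Finite.biUnion (Finset.finite_toSet _) (fun k hk => Set.Finite.image _ (ih _ ?_))
      have := (mem_Icc.1 (Finset.mem_coe.1 hk)).1
      omega

noncomputable def Lf (m u : ℕ) : Finset (List ℕ) := (L_finite m u).toFinset

lemma mem_Lf {m u : ℕ} {x : List ℕ} : x ∈ Lf m u ↔ x ∈ L m u := by simp [Lf]

lemma Lf_zero (m : ℕ) : Lf m 0 = {[]} := by
  ext x; simp [mem_Lf, L_zero]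

lemma sum_Lf_pos {R : Type*} [AddCommMonoid R] {m u : ℕ} (hu : 1 ≤ u) (f : List ℕ → R) :
    ∑ x ∈ Lf m u, f x = ∑ k ∈ Icc 1 (min m u), ∑ y ∈ Lf m (u - k), f ((2 * k) :: y) := by
  classical
  have : Lf m u = (Icc 1 (min m u)).biUnion (fun k => (Lf m (u - k)).image (fun y => (2 * k) :: y)) := by
    ext x
    rw [mem_Lf, mem_L_pos hu]
    simp only [mem_biUnion, mem_image, mem_Lf]
  rw [this, sum_biUnion]
  · refine sum_congr rfl (fun k _ => ?_)
    rw [sum_image]
    intro a _ b _ h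
    simpa using h
  · intro i _ j _ hij
    simp only [Function.onFun]
    rw [Finset.disjoint_left]
    intro x hx hx'
    simp only [mem_image] at hx hx'
    obtain ⟨y, _, rfl⟩ := hx
    obtain ⟨y', _, h⟩ := hx'
    simp only [List.cons.injEq] at h
    omega

/-- weight of a list, with a factor `ψ` for every nonempty suffix -/
def K {R : Type*} [CommSemiring R] (ψ Z : ℕ → R) : List ℕ → R
  | [] => 1
  | a :: y => ψ (a + y.sum) * Z a * K ψ Z y

lemma K_eq {R : Type*} [CommSemiring R] (ψ Z : ℕ → R) (x : List ℕ) :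
    K ψ Z x = (∏ t ∈ range x.length, ψ (x.drop t).sum) * (x.map Z).prod := by
  induction x with
  | nil => simp [K]
  | cons a y ih =>
    simp only [K, List.length_cons, prod_range_succ', List.drop_succ_cons, List.drop_zero,
      List.sum_cons, List.map_cons, List.prod_cons, ih]
    ring

lemma norm_K (ψ Z : ℕ → ℂ) (x : List ℕ) :
    ‖K ψ Z x‖ = K (fun u => ‖ψ u‖) (fun u => ‖Z u‖) x := by
  induction x with
  | nil => simp [K]
  | cons a y ih => simp [K, ih]

noncomputable def T {R : Type*} [CommSemiring R] (ψ Z : ℕ → R) (m u : ℕ) : R :=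
  ∑ x ∈ Lf m u, K ψ Z x

lemma T_zero {R : Type*} [CommSemiring R] (ψ Z : ℕ → R) (m : ℕ) : T ψ Z m 0 = 1 := by
  simp [T, Lf_zero, K]

lemma T_pos {R : Type*} [CommSemiring R] (ψ Z : ℕ → R) (m : ℕ) {u : ℕ} (hu : 1 ≤ u) :
    T ψ Z m u = ψ (2 * u) * ∑ k ∈ Icc 1 (min m u), Z (2 * k) * T ψ Z m (u - k) := by
  unfold T
  rw [sum_Lf_pos hu, mul_sum]
  refine sum_congr rfl (fun k hk => ?_)
  rw [mul_sum, mul_sum]
  refine sum_congr rfl (fun y hy => ?_)
  have h1 := (mem_Lf.1 hy).2
  have h2 := mem_Icc.1 hk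
  have : 2 * k + y.sum = 2 * u := by omega
  simp only [K, this]
  ring

/-- the vertex factor as a function of the remaining length `v` -/
noncomputable def psi (n v : ℕ) : ℝ := if v = 2 * n then 1 else ((v : ℝ) * (2 * n - v))⁻¹

lemma take_sum_pos {m u : ℕ} {x : List ℕ} (hx : x ∈ L m u) {t : ℕ} (h1 : 1 ≤ t) (h2 : t < x.length) :
    0 < (x.take t).sum := by
  cases x with
  | nil => simp at h2
  | cons a y =>
    obtain ⟨k, hk1, _, rfl⟩ := hx.1 a (by simp)
    obtain ⟨s, rfl⟩ : ∃ s, t = s + 1 := ⟨t - 1, by omega⟩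
    simp only [List.take_succ_cons, List.sum_cons]
    omega

lemma drop_sum_pos {m u : ℕ} {x : List ℕ} (hx : x ∈ L m u) {t : ℕ} (h2 : t < x.length) :
    0 < (x.drop t).sum := by
  rw [List.drop_eq_getElem_cons h2]
  obtain ⟨k, hk1, _, hk⟩ := hx.1 x[t] (List.getElem_mem h2)
  simp only [List.sum_cons]
  omega

lemma walks_eq {m n : ℕ} (hn : 1 ≤ n) : walks m n = (Lf m n : Set (List ℕ)) := by
  ext x
  rw [Finset.mem_coe, mem_Lf]
  constructor
  · rintro ⟨_, h1, h2, _⟩
    exact ⟨h1, h2⟩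
  · intro hx
    refine ⟨?_, hx.1, hx.2, ?_⟩
    · rintro rfl
      have := hx.2
      simp at this
      omega
    · intro t h1 h2
      have h3 := take_sum_pos hx h1 h2
      have h4 := drop_sum_pos hx h2
      have h5 := List.sum_take_add_sum_drop x t
      have h6 := hx.2
      unfold vertex
      constructor <;> omega

lemma weight_eq {m n : ℕ} (z : Fin m → ℂ) (hn : 1 ≤ n) {x : List ℕ} (hx : x ∈ L m n) :
    weight z n x = K (fun v => (psi n v : ℂ)) (V z) x := by
  rw [K_eq, weight]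
  congr 1
  have hlen : 1 ≤ x.length := by
    cases x with
    | nil => have := hx.2; simp at this; omega
    | cons a y => simp
  rw [range_eq_Ico, ← prod_Ico_consecutive _ (Nat.zero_le 1) hlen]
  have h0 : ∏ t ∈ Ico 0 1, ((psi n (x.drop t).sum : ℝ) : ℂ) = 1 := by
    simp [psi, hx.2]
  rw [h0, one_mul]
  refine prod_congr rfl (fun t ht => ?_)
  obtain ⟨h1, h2⟩ := mem_Ico.1 ht
  have h3 := take_sum_pos hx h1 h2
  have h5 := List.sum_take_add_sum_drop x t
  have h6 := hx.2
  have h7 : (x.drop t).sum ≠ 2 * n := by omega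
  simp only [psi, h7, if_false, vertex]
  generalize (x.take t).sum = A at *
  generalize (x.drop t).sum = B at *
  have h8 : (A : ℂ) = 2 * n - (B : ℕ) := by
    have : ((A + B : ℕ) : ℂ) = ((2 * n : ℕ) : ℂ) := by rw [h5, h6]
    push_cast at this ⊢
    linear_combination this
  push_cast
  rw [h8]
  congr 1
  ring

lemma psi_nonneg {n v : ℕ} (hv : v ≤ 2 * n) : 0 ≤ psi n v := by
  unfold psi
  split_ifs
  · norm_num
  · have : (v : ℝ) ≤ 2 * n := by exact_mod_cast hv
    have h0 : (0 : ℝ) ≤ v := Nat.cast_nonneg v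
    apply inv_nonneg.2
    apply mul_nonneg h0
    linarith

lemma signedSum_eq {m n : ℕ} (z : Fin m → ℂ) (hn : 1 ≤ n) :
    signedSum z n = T (fun v => (psi n v : ℂ)) (V z) m n := by
  rw [signedSum, walks_eq hn, finsum_mem_coe_finset, T]
  exact sum_congr rfl (fun x hx => weight_eq z hn (mem_Lf.1 hx))

lemma absSum_eq {m n : ℕ} (z : Fin m → ℂ) (hn : 1 ≤ n) :
    absSum z n = T (fun v => |psi n v|) (fun a => ‖V z a‖) m n := by
  rw [absSum, walks_eq hn, finsum_mem_coe_finset, T]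
  refine sum_congr rfl (fun x hx => ?_)
  rw [weight_eq z hn (mem_Lf.1 hx), norm_K]
  simp

end Pool.Agent.MP_269329_co.H81
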